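import Mathlib
import Pool.Agent.H769R2.Steinitz

/-!
A minimal sequence with property (U) none of whose permutations is a basis.

The space is the `c₀`-sum of the finite dimensional spaces `E_n`, of dimension `2^n`, with the norm
`max (sup |a_i|) |∑ a_i|`. By the (two-dimensional) Steinitz lemma every vector of `E_n` has an
ordering of its coordinates such that all partial sums have norm at most `3` times the norm of the
vector. So every element of the sum is the sum of its expansion in a suitable order. But for every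
fixed ordering of the coordinates of `E_n` the vector with coordinates `+1` on the first half and `-1`
on the second half has norm one and a partial sum of norm `2^(n-1)`.
-/

set_option autoImplicit false

open Filter Topology

namespace Pool.Agent.Results.MP_514f39_an.NoPermutedBasis

section Definitions

variable (𝕜 : Type) [RCLike 𝕜] {E : Type} [NormedAddCommGroup E] [NormedSpace 𝕜 E]

/-- The sequence `x` is a (Schauder) basis of `E`: every `y` is the norm limit of the partial sums
`∑_{n < N} α n • x n` for exactly one scalar sequence `α`. -/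
def IsBasis (x : ℕ → E) : Prop :=
  ∀ y : E, ∃! α : ℕ → 𝕜, Tendsto (fun N => ∑ n ∈ Finset.range N, α n • x n) atTop (𝓝 y)

/-- `y = ∑_i α (σ i) • x (σ i)`, a norm convergent series, for the bijection `σ` of `ℕ`. -/
def IsPermutedExpansion (x : ℕ → E) (y : E) (α : ℕ → 𝕜) (σ : Equiv.Perm ℕ) : Prop :=
  Tendsto (fun N => ∑ i ∈ Finset.range N, α (σ i) • x (σ i)) atTop (𝓝 y)

/-- Property (U): every `y` has a permuted expansion, and the scalar sequence is the same in all
permuted expansions of `y` (the bijection may depend on `y` and need not be unique). -/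
def PropertyU (x : ℕ → E) : Prop :=
  ∀ y : E, ∃! α : ℕ → 𝕜, ∃ σ : Equiv.Perm ℕ, IsPermutedExpansion 𝕜 x y α σ

/-- `x` is minimal: no `x m` lies in the closed linear span of the other terms. -/
def IsMinimal (x : ℕ → E) : Prop :=
  ∀ m, x m ∉ (Submodule.span 𝕜 (x '' {n | n ≠ m})).topologicalClosure

end Definitions

/-! ### Blocks -/

/-- the index of the block of `k`; the block `n` is `[2^n - 1, 2^(n+1) - 1)` -/
def blk (k : ℕ) : ℕ := Nat.log 2 (k + 1)

def st (n : ℕ) : ℕ := 2 ^ n - 1

def Block (n : ℕ) : Finset ℕ := Finset.Ico (st n) (st (n + 1))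

lemma st_add_one (n : ℕ) : st n + 1 = 2 ^ n := by
  unfold st
  have := Nat.one_le_two_pow (n := n)
  omega

lemma blk_eq_iff (k n : ℕ) : blk k = n ↔ st n ≤ k ∧ k < st (n + 1) := by
  unfold blk
  rw [Nat.log_eq_iff (Or.inr ⟨by norm_num, by omega⟩)]
  have h1 := st_add_one n
  have h2 := st_add_one (n + 1)
  omega

lemma mem_Block (k n : ℕ) : k ∈ Block n ↔ blk k = n := by
  rw [blk_eq_iff, Block, Finset.mem_Ico]

lemma card_Block (n : ℕ) : (Block n).card = 2 ^ n := by
  rw [Block, Nat.card_Ico]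
  have h1 := st_add_one n
  have h2 := st_add_one (n + 1)
  rw [pow_succ] at h2
  omega

lemma blk_mono {k l : ℕ} (h : k ≤ l) : blk k ≤ blk l := Nat.log_mono_right (by omega)

lemma st_blk_le (k : ℕ) : st (blk k) ≤ k := ((blk_eq_iff k _).1 rfl).1

lemma le_blk_iff (n k : ℕ) : n ≤ blk k ↔ st n ≤ k := by
  unfold blk
  rw [Nat.le_log_iff_pow_le (by norm_num) (by omega)]
  have h1 := st_add_one n
  omega

lemma st_mono {m n : ℕ} (h : m ≤ n) : st m ≤ st n := by
  unfold st
  have := Nat.pow_le_pow_right (n := 2) (by norm_num) h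
  omega

lemma le_st (n : ℕ) : n ≤ st n := by
  have h1 := st_add_one n
  have := Nat.lt_two_pow_self (n := n)
  omega

/-- gluing orderings of the blocks -/
lemma exists_perm (σ : ℕ → ℕ → ℕ) (h1 : ∀ n i j, i < 2 ^ n → j < 2 ^ n → σ n i = σ n j → i = j)
    (h2 : ∀ n, ∀ j < 2 ^ n, σ n j ∈ Block n) :
    ∃ π : Equiv.Perm ℕ, (∀ k, blk (π k) = blk k) ∧
      (∀ k, π k = σ (blk k) (k - st (blk k))) := by
  set f : ℕ → ℕ := fun k => σ (blk k) (k - st (blk k)) with hf
  have hlt : ∀ k, k - st (blk k) < 2 ^ (blk k) := by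
    intro k
    have h3 := (blk_eq_iff k (blk k)).1 rfl
    have h4 := st_add_one (blk k)
    have h5 := st_add_one (blk k + 1)
    rw [pow_succ] at h5
    omega
  have hblk : ∀ k, blk (f k) = blk k := fun k => (mem_Block _ _).1 (h2 _ _ (hlt k))
  have hinj : Function.Injective f := by
    intro k l hkl
    have h3 : blk k = blk l := by rw [← hblk k, ← hblk l, hkl]
    have h4 : σ (blk k) (k - st (blk k)) = σ (blk k) (l - st (blk k)) := by
      have : f k = f l := hkl
      simp only [hf] at this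
      rw [this, h3]
    have h5 := h1 (blk k) _ _ (hlt k) (by rw [h3]; exact hlt l) h4
    have h6 := st_blk_le k
    have h7 := st_blk_le l
    rw [← h3] at h7
    omega
  have hsurj : Function.Surjective f := by
    intro m
    set n := blk m with hn
    have himg : (Finset.range (2 ^ n)).image (σ n) = Block n := by
      apply Finset.eq_of_subset_of_card_le
      · intro x hx
        rw [Finset.mem_image] at hx
        obtain ⟨j, hj, rfl⟩ := hx
        exact h2 n j (Finset.mem_range.1 hj)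
      · rw [Finset.card_image_of_injOn, Finset.card_range, card_Block]
        intro i hi j hj hij
        exact h1 n i j (by simpa using hi) (by simpa using hj) hij
    have hm : m ∈ (Finset.range (2 ^ n)).image (σ n) := by
      rw [himg, mem_Block]
    rw [Finset.mem_image] at hm
    obtain ⟨j, hj, hjm⟩ := hm
    rw [Finset.mem_range] at hj
    have hb : blk (st n + j) = n := by
      rw [blk_eq_iff]
      have h4 := st_add_one n
      have h5 := st_add_one (n + 1)
      rw [pow_succ] at h5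
      omega
    refine ⟨st n + j, ?_⟩
    simp only [hf, hb]
    rw [Nat.add_sub_cancel_left, hjm]
  exact ⟨Equiv.ofBijective f ⟨hinj, hsurj⟩, hblk, fun k => rfl⟩

/-! ### The space -/

section Space

variable (𝕜 : Type) [RCLike 𝕜]

/-- pairs of bounded sequences -/
abbrev F : Type := lp (fun _ : ℕ => 𝕜) ⊤ × lp (fun _ : ℕ => 𝕜) ⊤

/-- the basis vectors in the big space: `(δ_k, δ_(blk k))` -/
noncomputable def X (k : ℕ) : F 𝕜 := (lp.single ⊤ k (1 : 𝕜), lp.single ⊤ (blk k) (1 : 𝕜))

/-- the space: the closed span of the vectors `X k` -/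
noncomputable def ESub : Submodule 𝕜 (F 𝕜) :=
  (Submodule.span 𝕜 (Set.range (X 𝕜))).topologicalClosure

/-- the coordinate functional of index `k` of the first component -/
noncomputable def cA (k : ℕ) : F 𝕜 →L[𝕜] 𝕜 :=
  LinearMap.mkContinuous
    { toFun := fun y => y.1 k
      map_add' := fun _ _ => rfl
      map_smul' := fun _ _ => rfl } 1 (fun y => by
      rw [one_mul]
      exact (lp.norm_apply_le_norm (by simp) y.1 k).trans (norm_fst_le y))

noncomputable def cB (k : ℕ) : F 𝕜 →L[𝕜] 𝕜 :=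
  LinearMap.mkContinuous
    { toFun := fun y => y.2 k
      map_add' := fun _ _ => rfl
      map_smul' := fun _ _ => rfl } 1 (fun y => by
      rw [one_mul]
      exact (lp.norm_apply_le_norm (by simp) y.2 k).trans (norm_snd_le y))

variable {𝕜}

lemma cA_apply (k : ℕ) (y : F 𝕜) : cA 𝕜 k y = y.1 k := rfl
lemma cB_apply (k : ℕ) (y : F 𝕜) : cB 𝕜 k y = y.2 k := rfl

lemma cA_X (j k : ℕ) : cA 𝕜 j (X 𝕜 k) = if j = k then 1 else 0 := by
  rw [cA_apply, X]
  show (lp.single ⊤ k (1 : 𝕜) : lp (fun _ : ℕ => 𝕜) ⊤) j = _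
  rw [lp.single_apply, Pi.single_apply]

lemma cB_X (n k : ℕ) : cB 𝕜 n (X 𝕜 k) = if n = blk k then 1 else 0 := by
  rw [cB_apply, X]
  show (lp.single ⊤ (blk k) (1 : 𝕜) : lp (fun _ : ℕ => 𝕜) ⊤) n = _
  rw [lp.single_apply, Pi.single_apply]

lemma norm_le_of (y : F 𝕜) (C : ℝ) (hC : 0 ≤ C) (h1 : ∀ k, ‖cA 𝕜 k y‖ ≤ C)
    (h2 : ∀ k, ‖cB 𝕜 k y‖ ≤ C) : ‖y‖ ≤ C := by
  rw [Prod.norm_def]
  exact max_le (lp.norm_le_of_forall_le hC h1) (lp.norm_le_of_forall_le hC h2)

lemma norm_cA_le (k : ℕ) (y : F 𝕜) : ‖cA 𝕜 k y‖ ≤ ‖y‖ :=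
  (lp.norm_apply_le_norm (by simp) y.1 k).trans (norm_fst_le y)

lemma norm_cB_le (k : ℕ) (y : F 𝕜) : ‖cB 𝕜 k y‖ ≤ ‖y‖ :=
  (lp.norm_apply_le_norm (by simp) y.2 k).trans (norm_snd_le y)

/-- the block sum relation -/
lemma cB_eq {y : F 𝕜} (hy : y ∈ ESub 𝕜) (n : ℕ) : cB 𝕜 n y = ∑ k ∈ Block n, cA 𝕜 k y := by
  have h : ESub 𝕜 ≤ LinearMap.ker ((cB 𝕜 n - ∑ k ∈ Block n, cA 𝕜 k : F 𝕜 →L[𝕜] 𝕜) : F 𝕜 →ₗ[𝕜] 𝕜) := by
    apply Submodule.topologicalClosure_minimal
    · rw [Submodule.span_le]
      rintro _ ⟨j, rfl⟩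
      simp only [SetLike.mem_coe, LinearMap.mem_ker, ContinuousLinearMap.coe_coe,
        sub_apply, sum_apply]
      rw [cB_X]
      simp_rw [cA_X]
      rw [Finset.sum_ite_eq']
      simp only [mem_Block, eq_comm, sub_self]
    · exact ContinuousLinearMap.isClosed_ker _
  have h2 := h hy
  simp only [LinearMap.mem_ker, ContinuousLinearMap.coe_coe,
        sub_apply, sum_apply] at h2
  exact sub_eq_zero.1 h2

/-- the coordinates tend to zero -/
lemma tends {y : F 𝕜} (hy : y ∈ ESub 𝕜) (ε : ℝ) (hε : 0 < ε) :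
    ∃ K, ∀ k ≥ K, ‖cA 𝕜 k y‖ ≤ ε ∧ ‖cB 𝕜 k y‖ ≤ ε := by
  have h1 : ∀ z ∈ Submodule.span 𝕜 (Set.range (X 𝕜)), ∃ K, ∀ k ≥ K, cA 𝕜 k z = 0 ∧ cB 𝕜 k z = 0 := by
    intro z hz
    induction hz using Submodule.span_induction with
    | mem z hz =>
      obtain ⟨j, rfl⟩ := hz
      refine ⟨max (j + 1) (blk j + 1), fun k hk => ?_⟩
      rw [cA_X, cB_X, if_neg, if_neg]
      · exact ⟨rfl, rfl⟩
      · have := le_max_right (j+1) (blk j + 1); omega
      · have := le_max_left (j+1) (blk j + 1); omega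
    | zero => exact ⟨0, fun k _ => by simp⟩
    | add z w _ _ hz hw =>
      obtain ⟨K, hK⟩ := hz
      obtain ⟨L, hL⟩ := hw
      refine ⟨max K L, fun k hk => ?_⟩
      obtain ⟨a, b⟩ := hK k (le_trans (le_max_left _ _) hk)
      obtain ⟨c, d⟩ := hL k (le_trans (le_max_right _ _) hk)
      rw [map_add, map_add, a, b, c, d]
      simp
    | smul c z _ hz =>
      obtain ⟨K, hK⟩ := hz
      refine ⟨K, fun k hk => ?_⟩
      obtain ⟨a, b⟩ := hK k hk
      rw [map_smul, map_smul, a, b]
      simp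
  have hy' : y ∈ closure (Submodule.span 𝕜 (Set.range (X 𝕜)) : Set (F 𝕜)) := hy
  rw [Metric.mem_closure_iff] at hy'
  obtain ⟨z, hz, hd⟩ := hy' ε hε
  obtain ⟨K, hK⟩ := h1 z hz
  rw [dist_eq_norm] at hd
  refine ⟨K, fun k hk => ?_⟩
  obtain ⟨a, b⟩ := hK k hk
  have h3 : cA 𝕜 k y = cA 𝕜 k (y - z) := by rw [map_sub, a, sub_zero]
  have h4 : cB 𝕜 k y = cB 𝕜 k (y - z) := by rw [map_sub, b, sub_zero]
  rw [h3, h4]
  exact ⟨(norm_cA_le _ _).trans hd.le, (norm_cB_le _ _).trans hd.le⟩

/-- every element of the space has a convergent permuted expansion -/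
lemma exists_expansion {y : F 𝕜} (hy : y ∈ ESub 𝕜) :
    ∃ π : Equiv.Perm ℕ,
      Tendsto (fun N => ∑ i ∈ Finset.range N, cA 𝕜 (π i) y • X 𝕜 (π i)) atTop (𝓝 y) := by
  -- size of the blocks
  have hM : ∀ n, ∃ M : ℝ, 0 ≤ M ∧ (∀ k ∈ Block n, ‖cA 𝕜 k y‖ ≤ M) ∧ ‖cB 𝕜 n y‖ ≤ M ∧
      (∀ C : ℝ, (∀ k ∈ Block n, ‖cA 𝕜 k y‖ ≤ C) → ‖cB 𝕜 n y‖ ≤ C → M ≤ C) := by
    intro n
    have hne : (Block n).Nonempty := by
      rw [← Finset.card_pos, card_Block]; positivity
    obtain ⟨k0, hk0, hmax⟩ := Finset.exists_max_image (Block n) (fun k => ‖cA 𝕜 k y‖) hne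
    refine ⟨max ‖cA 𝕜 k0 y‖ ‖cB 𝕜 n y‖, by positivity, fun k hk => (hmax k hk).trans (le_max_left _ _),
      le_max_right _ _, fun C h1 h2 => max_le (h1 k0 hk0) h2⟩
  choose M hM0 hMA hMB hMmin using hM
  have hσ : ∀ n, ∃ σ : ℕ → ℕ, (∀ i j, i < (Block n).card → j < (Block n).card → σ i = σ j → i = j) ∧
      (∀ j < (Block n).card, σ j ∈ Block n) ∧ ∀ j ≤ (Block n).card,
        ‖∑ i ∈ Finset.range j, cA 𝕜 (σ i) y‖ ≤ 3 * M n := by
    intro n
    exact H769R2.steinitz (fun k => cA 𝕜 k y) (Block n) (M n) (hM0 n) (hMA n)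
      (by rw [← cB_eq hy]; exact hMB n)
  simp_rw [card_Block] at hσ
  choose σ s1 s2 s3 using hσ
  obtain ⟨π, hπ1, hπ2⟩ := exists_perm σ s1 s2
  refine ⟨π, ?_⟩
  rw [Metric.tendsto_atTop]
  intro ε hε
  obtain ⟨K, hK⟩ := tends hy (ε / 8) (by positivity)
  refine ⟨st K, fun N hN => ?_⟩
  set n := blk N with hn
  have hKn : K ≤ n := (le_blk_iff K N).2 hN
  have hMn : M n ≤ ε / 8 := by
    apply hMmin
    · intro k hk
      have h1 := (blk_eq_iff k n).1 ((mem_Block k n).1 hk)
      have h2 := le_st n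
      exact (hK k (by omega)).1
    · exact (hK n hKn).2
  have hblk' : ∀ k, blk (π.symm k) = blk k := by
    intro k
    have := hπ1 (π.symm k)
    rw [π.apply_symm_apply] at this
    exact this.symm
  have hinjN : ∀ k, ∑ i ∈ Finset.range N, (if k = π i then cA 𝕜 (π i) y else 0) =
      if π.symm k < N then cA 𝕜 k y else 0 := by
    intro k
    have h1 : ∀ i, (if k = π i then cA 𝕜 (π i) y else 0) =
        if π.symm k = i then cA 𝕜 k y else 0 := by
      intro i
      by_cases h : k = π i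
      · rw [if_pos h, if_pos (by rw [h]; simp), h]
      · rw [if_neg h, if_neg (by intro h'; apply h; rw [← h']; simp)]
    simp_rw [h1]
    rw [Finset.sum_ite_eq]
    simp
  have hlow := (blk_eq_iff N n).1 hn.symm
  rw [dist_comm, dist_eq_norm]
  refine lt_of_le_of_lt (norm_le_of _ (ε / 2) (by positivity) ?_ ?_) (by linarith)
  · intro k
    rw [map_sub, map_sum]
    simp_rw [map_smul, cA_X, smul_eq_mul, mul_ite, mul_one, mul_zero]
    rw [hinjN]
    split_ifs with h
    · rw [sub_self, norm_zero]; positivity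
    · rw [sub_zero]
      have h1 : n ≤ blk k := by
        rw [← hblk' k, le_blk_iff]
        omega
      have h2 := (le_blk_iff n k).1 h1
      have h3 := le_st n
      have := (hK k (by omega)).1
      linarith
  · intro m
    rw [map_sub, map_sum]
    simp_rw [map_smul, cB_X, smul_eq_mul, mul_ite, mul_one, mul_zero, hπ1]
    rcases lt_trichotomy m n with hmn | hmn | hmn
    · -- earlier block
      have h1 : ∑ i ∈ Finset.range N, (if m = blk i then cA 𝕜 (π i) y else 0) = cB 𝕜 m y := by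
        rw [cB_eq hy m, ← Finset.sum_filter]
        have h2 : (Finset.range N).filter (fun i => m = blk i) = Block m := by
          ext i
          rw [Finset.mem_filter, Finset.mem_range, mem_Block]
          constructor
          · exact fun h => h.2.symm
          · intro h
            refine ⟨?_, h.symm⟩
            have h3 := ((blk_eq_iff i m).1 h).2
            have h4 : st (m + 1) ≤ st n := st_mono (by omega)
            omega
        rw [h2]
        apply Finset.sum_bij (fun i _ => π i)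
        · intro i hi
          rw [mem_Block] at hi ⊢
          rw [hπ1, hi]
        · intro i _ j _ hij
          exact π.injective hij
        · intro k hk
          rw [mem_Block] at hk
          exact ⟨π.symm k, by rw [mem_Block, hblk', hk], by simp⟩
        · intro i _; rfl
      rw [h1, sub_self, norm_zero]
      positivity
    · -- current block
      rw [hmn]
      have h1 : ∑ i ∈ Finset.range N, (if n = blk i then cA 𝕜 (π i) y else 0) =
          ∑ j ∈ Finset.range (N - st n), cA 𝕜 (σ n j) y := by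
        rw [← Finset.sum_filter]
        have h2 : (Finset.range N).filter (fun i => n = blk i) = Finset.Ico (st n) N := by
          ext i
          rw [Finset.mem_filter, Finset.mem_range, Finset.mem_Ico]
          constructor
          · rintro ⟨h3, h4⟩
            exact ⟨((blk_eq_iff i n).1 h4.symm).1, h3⟩
          · rintro ⟨h3, h4⟩
            exact ⟨h4, ((blk_eq_iff i n).2 ⟨h3, by omega⟩).symm⟩
        rw [h2, Finset.sum_Ico_eq_sum_range]
        apply Finset.sum_congr rfl
        intro j hj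
        rw [Finset.mem_range] at hj
        have h5 : blk (st n + j) = n := (blk_eq_iff _ n).2 ⟨by omega, by omega⟩
        rw [hπ2, h5, Nat.add_sub_cancel_left]
      rw [h1]
      have h6 := s3 n (N - st n) (by
        have h4 := st_add_one n
        have h5 := st_add_one (n + 1)
        rw [pow_succ] at h5
        omega)
      calc ‖cB 𝕜 n y - ∑ j ∈ Finset.range (N - st n), cA 𝕜 (σ n j) y‖
          ≤ ‖cB 𝕜 n y‖ + ‖∑ j ∈ Finset.range (N - st n), cA 𝕜 (σ n j) y‖ := norm_sub_le _ _
        _ ≤ M n + 3 * M n := add_le_add (hMB n) h6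
        _ ≤ ε / 2 := by linarith
    · -- later block
      have h1 : ∑ i ∈ Finset.range N, (if m = blk i then cA 𝕜 (π i) y else 0) = 0 := by
        apply Finset.sum_eq_zero
        intro i hi
        rw [Finset.mem_range] at hi
        rw [if_neg]
        intro h2
        have h3 := blk_mono (show i ≤ N by omega)
        omega
      rw [h1, sub_zero]
      have := (hK m (by omega)).2
      linarith

/-- the vectors in the space -/
noncomputable def x (k : ℕ) : ESub 𝕜 :=
  ⟨X 𝕜 k, Submodule.le_topologicalClosure _ (Submodule.subset_span ⟨k, rfl⟩)⟩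

lemma coe_x (k : ℕ) : ((x k : ESub 𝕜) : F 𝕜) = X 𝕜 k := rfl

/-- the coefficients of a convergent expansion are the coordinates -/
lemma coeff_eq {y : ESub 𝕜} {α : ℕ → 𝕜} {σ : Equiv.Perm ℕ}
    (h : Tendsto (fun N => ∑ i ∈ Finset.range N, α i • (x (σ i) : ESub 𝕜)) atTop (𝓝 y)) (j : ℕ) :
    α j = cA 𝕜 (σ j) (y : F 𝕜) := by
  have h1 : Tendsto (fun N => cA 𝕜 (σ j) ((∑ i ∈ Finset.range N, α i • (x (σ i) : ESub 𝕜) : ESub 𝕜) : F 𝕜))
      atTop (𝓝 (cA 𝕜 (σ j) (y : F 𝕜))) :=
    ((cA 𝕜 (σ j)).continuous.comp continuous_subtype_val).tendsto y |>.comp h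
  have h2 : Tendsto (fun N => cA 𝕜 (σ j) ((∑ i ∈ Finset.range N, α i • (x (σ i) : ESub 𝕜) : ESub 𝕜) : F 𝕜))
      atTop (𝓝 (α j)) := by
    apply tendsto_const_nhds.congr'
    filter_upwards [eventually_gt_atTop j] with N hN
    rw [Submodule.coe_sum, map_sum]
    have h3 : ∀ i, cA 𝕜 (σ j) ((α i • (x (σ i) : ESub 𝕜) : ESub 𝕜) : F 𝕜) =
        if j = i then α j else 0 := by
      intro i
      rw [Submodule.coe_smul, coe_x, map_smul, cA_X]
      by_cases h4 : j = i
      · subst h4; simp
      · rw [if_neg h4, if_neg (fun h5 => h4 (σ.injective h5)), smul_zero]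
    simp_rw [h3]
    rw [Finset.sum_ite_eq, if_pos (Finset.mem_range.2 hN)]
  exact tendsto_nhds_unique h2 h1

lemma propertyU : PropertyU 𝕜 (x : ℕ → ESub 𝕜) := by
  intro y
  obtain ⟨π, hπ⟩ := exists_expansion y.2
  refine ⟨fun k => cA 𝕜 k (y : F 𝕜), ⟨π, ?_⟩, ?_⟩
  · rw [IsPermutedExpansion, tendsto_subtype_rng]
    refine hπ.congr fun N => ?_
    rw [Submodule.coe_sum]
    rfl
  · rintro β ⟨σ, hσ⟩
    funext k
    have := coeff_eq (α := fun i => β (σ i)) hσ (σ.symm k)
    simpa using this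

lemma isMinimal : IsMinimal 𝕜 (x : ℕ → ESub 𝕜) := by
  intro m hm
  have h : (Submodule.span 𝕜 ((x : ℕ → ESub 𝕜) '' {n | n ≠ m})).topologicalClosure ≤
      LinearMap.ker (((cA 𝕜 m).comp (ESub 𝕜).subtypeL : ESub 𝕜 →L[𝕜] 𝕜) : ESub 𝕜 →ₗ[𝕜] 𝕜) := by
    apply Submodule.topologicalClosure_minimal
    · rw [Submodule.span_le]
      rintro _ ⟨j, hj, rfl⟩
      show cA 𝕜 m (X 𝕜 j) = 0
      rw [cA_X, if_neg (fun h => hj h.symm)]
    · exact ContinuousLinearMap.isClosed_ker _
  have h2 : cA 𝕜 m (X 𝕜 m) = 0 := h hm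
  rw [cA_X, if_pos rfl] at h2
  exact one_ne_zero h2

/-- a discrete intermediate value property -/
lemma exists_count (τ : Equiv.Perm ℕ) (B : Finset ℕ) (h : ℕ) (hh : h ≤ B.card) :
    ∃ N, (B.filter (fun k => τ.symm k < N)).card = h := by
  have htop : ∃ N, h ≤ (B.filter (fun k => τ.symm k < N)).card := by
    refine ⟨B.sup (fun k => τ.symm k + 1), ?_⟩
    rw [Finset.filter_true_of_mem]
    · exact hh
    · intro k hk
      have := Finset.le_sup (f := fun k => τ.symm k + 1) hk
      omega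
  classical
  set N := Nat.find htop with hN
  have h1 : h ≤ (B.filter (fun k => τ.symm k < N)).card := Nat.find_spec htop
  refine ⟨N, le_antisymm ?_ h1⟩
  rcases Nat.eq_zero_or_pos N with h0 | h0
  · rw [h0]; simp
  · have h2 : ¬ h ≤ (B.filter (fun k => τ.symm k < N - 1)).card :=
      Nat.find_min htop (by omega)
    have h3 : B.filter (fun k => τ.symm k < N) ⊆ insert (τ (N-1)) (B.filter (fun k => τ.symm k < N - 1)) := by
      intro k hk
      rw [Finset.mem_filter] at hk
      rw [Finset.mem_insert, Finset.mem_filter]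
      by_cases h4 : τ.symm k = N - 1
      · left; rw [← h4]; simp
      · right; exact ⟨hk.1, by omega⟩
    have h4 := (Finset.card_le_card h3).trans (Finset.card_insert_le _ _)
    omega

lemma not_isBasis (τ : Equiv.Perm ℕ) : ¬ IsBasis 𝕜 (fun n => (x (τ n) : ESub 𝕜)) := by
  intro hbasis
  have hcomplete : CompleteSpace (ESub 𝕜) :=
    (Submodule.isClosed_topologicalClosure _).completeSpace_coe
  -- the partial sum operators
  let P : ℕ → (ESub 𝕜 →L[𝕜] ESub 𝕜) := fun N =>
    ∑ i ∈ Finset.range N, ((cA 𝕜 (τ i)).comp (ESub 𝕜).subtypeL).smulRight (x (τ i) : ESub 𝕜)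
  have hP : ∀ N (y : ESub 𝕜), P N y = ∑ i ∈ Finset.range N, cA 𝕜 (τ i) (y : F 𝕜) • (x (τ i) : ESub 𝕜) := by
    intro N y
    simp only [P, sum_apply]
    rfl
  have hconv : ∀ y : ESub 𝕜, Tendsto (fun N => P N y) atTop (𝓝 y) := by
    intro y
    obtain ⟨α, hα, -⟩ := hbasis y
    refine hα.congr fun N => ?_
    rw [hP]
    apply Finset.sum_congr rfl
    intro i _
    rw [coeff_eq hα i]
  obtain ⟨C, hC⟩ := banach_steinhaus (g := P) (fun y => by
    obtain ⟨C, hC⟩ := (hconv y).norm.bddAbove_range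
    exact ⟨C, fun N => hC ⟨N, rfl⟩⟩)
  -- choose a large block
  obtain ⟨n, hn⟩ := exists_nat_gt C
  have hcard : (Block (n + 1)).card = 2 * 2 ^ n := by rw [card_Block, pow_succ, mul_comm]
  obtain ⟨N, hN⟩ := exists_count τ (Block (n + 1)) (2 ^ n) (by omega)
  set H := (Block (n + 1)).filter (fun k => τ.symm k < N) with hH
  set ε : ℕ → 𝕜 := fun k => if τ.symm k < N then 1 else -1 with hε
  let y : ESub 𝕜 := ∑ k ∈ Block (n + 1), ε k • x k
  have hyc : ∀ j, cA 𝕜 j (y : F 𝕜) = if j ∈ Block (n + 1) then ε j else 0 := by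
    intro j
    simp only [y, Submodule.coe_sum, map_sum, Submodule.coe_smul, coe_x, map_smul, cA_X,
      smul_eq_mul, mul_ite, mul_one, mul_zero]
    rw [Finset.sum_ite_eq]
  have hsumε : ∑ k ∈ Block (n + 1), ε k = 0 := by
    simp only [hε]
    rw [Finset.sum_ite, Finset.sum_const, Finset.sum_const, ← hH, hN]
    have h1 : ((Block (n + 1)).filter (fun k => ¬ τ.symm k < N)).card = 2 ^ n := by
      have := Finset.card_filter_add_card_filter_not (s := Block (n + 1)) (fun k => τ.symm k < N)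
      rw [← hH, hN, hcard] at this
      omega
    rw [h1]
    simp
  have hyn : ‖y‖ ≤ 1 := by
    show ‖(y : F 𝕜)‖ ≤ 1
    apply norm_le_of _ _ zero_le_one
    · intro j
      rw [hyc]
      split_ifs
      · simp only [hε]
        split_ifs <;> simp
      · simp
    · intro m
      rw [cB_eq y.2 m]
      by_cases hm : m = n + 1
      · rw [hm, Finset.sum_congr rfl (fun k hk => by rw [hyc k, if_pos hk]), hsumε]
        simp
      · rw [Finset.sum_eq_zero]
        · simp
        · intro k hk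
          rw [hyc, if_neg]
          rw [mem_Block] at hk ⊢
          omega
  have h1 : ‖P N y‖ ≤ C := by
    calc ‖P N y‖ ≤ ‖P N‖ * ‖y‖ := (P N).le_opNorm y
      _ ≤ C * 1 := by
        gcongr
        · exact (norm_nonneg _).trans (hC N)
        · exact hC N
      _ = C := mul_one _
  have h2 : cB 𝕜 (n + 1) ((P N y : ESub 𝕜) : F 𝕜) = 2 ^ n := by
    rw [cB_eq (P N y).2 (n + 1)]
    have h3 : ∀ k ∈ Block (n + 1), cA 𝕜 k ((P N y : ESub 𝕜) : F 𝕜) = if τ.symm k < N then 1 else 0 := by
      intro k hk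
      rw [hP]
      simp only [Submodule.coe_sum, map_sum, Submodule.coe_smul, coe_x, map_smul, cA_X,
        smul_eq_mul, mul_ite, mul_one, mul_zero]
      have h4 : ∀ i, (if k = τ i then cA 𝕜 (τ i) (y : F 𝕜) else 0) =
          if τ.symm k = i then ε k else 0 := by
        intro i
        by_cases h : k = τ i
        · rw [if_pos h, if_pos (by rw [h]; simp), ← h, hyc, if_pos hk]
        · rw [if_neg h, if_neg (by intro h'; apply h; rw [← h']; simp)]
      simp_rw [h4]
      rw [Finset.sum_ite_eq]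
      simp only [Finset.mem_range, hε]
      by_cases h5 : τ.symm k < N
      · simp [h5]
      · simp [h5]
    rw [Finset.sum_congr rfl h3, ← Finset.sum_filter, ← hH, Finset.sum_const, hN]
    simp
  have h3 := norm_cB_le (n + 1) ((P N y : ESub 𝕜) : F 𝕜)
  rw [h2] at h3
  have h4 : ‖((2:𝕜) ^ n)‖ = 2 ^ n := by simp
  rw [h4] at h3
  have h5 : ‖((P N y : ESub 𝕜) : F 𝕜)‖ ≤ C := h1
  have h6 : (n : ℝ) < 2 ^ n := by exact_mod_cast Nat.lt_two_pow_self
  linarith

lemma separable : TopologicalSpace.SeparableSpace (ESub 𝕜) := by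
  have h1 : TopologicalSpace.IsSeparable (Submodule.span 𝕜 (Set.range (X 𝕜)) : Set (F 𝕜)) :=
    ((Set.countable_range (X 𝕜)).isSeparable).span
  exact h1.closure.separableSpace

end Space

/-- Over the real and over the complex scalars there is a minimal sequence with property (U) in a
separable Banach space such that no permutation of the sequence is a basis. -/
theorem result (𝕜 : Type) [RCLike 𝕜] :
    ∃ (E : Type) (_ : NormedAddCommGroup E) (_ : NormedSpace 𝕜 E) (_ : CompleteSpace E)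
      (_ : TopologicalSpace.SeparableSpace E) (x : ℕ → E),
      PropertyU 𝕜 x ∧ IsMinimal 𝕜 x ∧ ∀ τ : Equiv.Perm ℕ, ¬ IsBasis 𝕜 (fun n => x (τ n)) :=
  ⟨ESub 𝕜, inferInstance, inferInstance,
    (Submodule.isClosed_topologicalClosure _).completeSpace_coe, separable, x,
    propertyU, isMinimal, not_isBasis⟩

end Pool.Agent.Results.MP_514f39_an.NoPermutedBasis
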